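import Pool.Agent.Y757.GM.Stm

set_option autoImplicit false

/-!
# Geometric means of zeta: measurability and upper bounds of `J_ω`

Job 5127 (poster helper757).
-/

namespace Pool.Agent.Y43.GM

open MeasureTheory Set Filter Topology Pool.Agent.Y757.LS Pool.Agent.Y757.EM ZU
open Pool.Agent.Y757.GM
open scoped ENNReal

lemma wt_finite {ω : Measure (ℝ × ℝ)} {W R : ℝ} (h : Wt ω W R) : IsFiniteMeasure ω := by
  refine ⟨?_⟩
  have h1 : ω univ ≤ ω (Prod.fst ⁻¹' (Ioc 0 R)) := by
    refine measure_mono_ae ?_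
    filter_upwards [h.supp] with q hq _
    exact ⟨hq.1, hq.2.1⟩
  refine lt_of_le_of_lt h1 ?_
  rw [← Measure.map_apply measurable_fst measurableSet_Ioc]
  refine lt_of_le_of_lt (h.dens _) ?_
  rw [Measure.smul_apply, Real.volume_Ioc, smul_eq_mul]
  exact ENNReal.mul_lt_top ENNReal.ofReal_lt_top ENNReal.ofReal_lt_top

lemma lz_le {s t : ℝ} (hs : 0 < s) (ht : 1 ≤ t) : lz s t ≤ vv s t + 4 := by
  by_cases hz : riemannZeta (pt s t) = 0
  · unfold lz
    rw [hz, norm_zero, Real.log_zero]
    linarith [vv_nonneg s t]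
  · have hne := pt_ne_one (s := s) (t := t) (by rw [abs_of_pos (by linarith)]; exact ht)
    have h1 := log_ratio (s := s) (t := t) (by linarith) ht
    have h2 : (4 : ℝ) / t ≤ 4 := div_le_self (by norm_num) ht
    have hr : (pt s t - 1) / (pt s t + 3) ≠ 0 := by
      apply div_ne_zero (sub_ne_zero.2 hne)
      intro h0
      have h3 : (pt s t + 3).re = 0 := by rw [h0, Complex.zero_re]
      rw [Complex.add_re, pt_re] at h3
      have h4 : (3 : ℂ).re = 3 := by norm_num
      rw [h4] at h3
      linarith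
    have h3 : Real.log ‖GG (pt s t)‖ = Real.log ‖(pt s t - 1) / (pt s t + 3)‖ + lz s t := by
      unfold lz
      rw [GG_of_ne hne, norm_mul, Real.log_mul (norm_ne_zero_iff.2 hr) (norm_ne_zero_iff.2 hz)]
    have h4 : Real.log ‖GG (pt s t)‖ ≤ vv s t := by
      unfold vv
      rw [Real.posLog_apply]
      exact le_max_right _ _
    have h5 := (abs_le.1 h1).1
    linarith

lemma vv_le : ∃ B : ℝ, 0 ≤ B ∧ ∀ t : ℝ, 2 ≤ t → ∀ q : ℝ × ℝ, 0 < q.1 → |q.2| ≤ 1 →
    vv q.1 (t + q.2) ≤ B + 4 * Real.log t := by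
  obtain ⟨C, hC, h⟩ := vv_upper
  obtain ⟨C', hC', h'⟩ := vv_right (η := 1) one_pos
  refine ⟨C + C' + 4, by positivity, fun t ht q hq1 hq2 => ?_⟩
  have hlt : 0 ≤ Real.log t := Real.log_nonneg (by linarith)
  by_cases h10 : q.1 ≤ 10
  · have h1 := h q.1 (t + q.2) (by linarith) h10
    have h2 := abs_le.1 hq2
    have h3 : |t + q.2| = t + q.2 := abs_of_nonneg (by linarith [h2.1])
    have h4 : Real.log (1 + |t + q.2|) ≤ Real.log (2 * t) := by
      apply Real.log_le_log
      · have := abs_nonneg (t + q.2)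
        linarith
      · rw [h3]; linarith [h2.2]
    rw [Real.log_mul (by norm_num) (by linarith)] at h4
    have h5 : Real.log 2 ≤ 1 := by linarith [Real.log_two_lt_d9]
    linarith
  · have h1 := h' q.1 (t + q.2) (by linarith)
    linarith

lemma vv_integrable {ω : Measure (ℝ × ℝ)} {W R : ℝ} (h : Wt ω W R) {t : ℝ} (ht : 2 ≤ t) :
    Integrable (fun q : ℝ × ℝ => vv q.1 (t + q.2)) ω := by
  have := wt_finite h
  obtain ⟨B, hB, hB'⟩ := vv_le
  refine Integrable.mono' (g := fun _ => B + 4 * Real.log t) (integrable_const _)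
    (vv_meas_comp measurable_fst (measurable_snd.const_add t)).aestronglyMeasurable ?_
  filter_upwards [h.supp] with q hq
  rw [Real.norm_of_nonneg (vv_nonneg _ _)]
  exact hB' t ht q hq.1 hq.2.2

theorem t_up : S_up := by
  intro ω W R h
  have := wt_finite h
  have hM0 : 0 ≤ ω.real univ := measureReal_nonneg
  have key : ∀ t : ℝ, 2 ≤ t → Jw ω t ≤ (∫ q, vv q.1 (t + q.2) ∂ω) + 4 * ω.real univ := by
    intro t ht
    have h0 : 0 ≤ ∫ q, vv q.1 (t + q.2) ∂ω := integral_nonneg (fun q => vv_nonneg _ _)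
    by_cases hi : Integrable (fun q : ℝ × ℝ => lz q.1 (t + q.2)) ω
    · have h1 : (∫ q, lz q.1 (t + q.2) ∂ω) ≤ ∫ q, (vv q.1 (t + q.2) + 4) ∂ω := by
        refine integral_mono_ae hi ((vv_integrable h ht).add (integrable_const 4)) ?_
        filter_upwards [h.supp] with q hq
        have h2 := abs_le.1 hq.2.2
        exact lz_le hq.1 (by linarith [h2.1])
      rw [integral_add (vv_integrable h ht) (integrable_const 4), integral_const,
        smul_eq_mul, mul_comm] at h1
      exact h1
    · have h1 : Jw ω t = 0 := integral_undef hi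
      rw [h1]
      positivity
  refine ⟨?_, ⟨4 * ω.real univ, key⟩, ?_⟩
  · unfold Jw
    have h2 : StronglyMeasurable (Function.uncurry fun (t : ℝ) (q : ℝ × ℝ) => lz q.1 (t + q.2)) :=
      (lz_meas_comp (measurable_fst.comp measurable_snd)
        (measurable_fst.add (measurable_snd.comp measurable_snd))).stronglyMeasurable
    exact (h2.integral_prod_right (ν := ω)).measurable
  · obtain ⟨B, hB, hB'⟩ := vv_le
    refine ⟨(B + 8) * ω.real univ, fun t ht => ?_⟩
    have hlt : 0 ≤ Real.log t := Real.log_nonneg (by linarith)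
    have h1 : (∫ q, vv q.1 (t + q.2) ∂ω) ≤ ∫ _q, (B + 4 * Real.log t) ∂ω := by
      refine integral_mono_ae (vv_integrable h ht) (integrable_const _) ?_
      filter_upwards [h.supp] with q hq
      exact hB' t ht q hq.1 hq.2.2
    rw [integral_const, smul_eq_mul] at h1
    refine (key t ht).trans ?_
    have h2 : 0 ≤ ω.real univ * Real.log t := mul_nonneg hM0 hlt
    have h3 : 0 ≤ B * (ω.real univ * Real.log t) := mul_nonneg hB h2
    nlinarith

end Pool.Agent.Y43.GM
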